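import Pool.Agent.N219.DW.Sched

open Set Filter Topology Metric MeasureTheory Pool.Agent.N219.DW

namespace Pool.Agent.Results.MP_9b5b1e_an.FullDenjoyWolff

/-- Part 1: there are inner functions `f_1, f_2, …` (Blaschke products of degree two) whose forward
composition is contracting, whose interior orbits converge to the boundary, with
`∑ (1 - |F_n(0)|) = ∞`, and for which almost every point of the circle is in the Denjoy–Wolff set.

Part 2: moreover, for any prescribed sequence `ε_n → 0` one can have `1 - |F_n(0)| ≥ ε_n` for all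
large `n`. -/
theorem result :
    (∃ f : ℕ → ℂ → ℂ,
      (∀ n, ∃ a b t : ℝ, (0 ≤ a ∧ a < 1) ∧ (0 ≤ b ∧ b < 1) ∧ (0 ≤ t ∧ t < 1) ∧
        f n = mob b ∘ bl t ∘ mob (-a)) ∧
      (∀ n, IsInner (f n)) ∧ Contracting (fwd f) ∧ ToBoundary (fwd f) ∧
      (¬ Summable fun n => 1 - ‖fwd f n 0‖) ∧
      ∀ᵐ θ : ℝ, InDenjoyWolff (fwd f) θ) ∧
    (∀ ε : ℕ → ℝ, Tendsto ε atTop (𝓝 0) →
      ∃ f : ℕ → ℂ → ℂ,
        (∀ n, ∃ a b t : ℝ, (0 ≤ a ∧ a < 1) ∧ (0 ≤ b ∧ b < 1) ∧ (0 ≤ t ∧ t < 1) ∧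
          f n = mob b ∘ bl t ∘ mob (-a)) ∧
        (∀ n, IsInner (f n)) ∧ Contracting (fwd f) ∧ ToBoundary (fwd f) ∧
        (∀ᶠ n in atTop, ε n ≤ 1 - ‖fwd f n 0‖) ∧
        ∀ᵐ θ : ℝ, InDenjoyWolff (fwd f) θ) :=
  ⟨main', main⟩

end Pool.Agent.Results.MP_9b5b1e_an.FullDenjoyWolff
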